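import Mathlib

/-!
# Metric and edge metric dimension of hypercubes: the algebraic description
-/

set_option autoImplicit false

namespace Pool.Agent.U365.HC

open Finset

/-- the hypercube graph -/
def cube (d : ℕ) : SimpleGraph (Fin d → Bool) where
  Adj x y := hammingDist x y = 1
  symm := ⟨fun x y h => by rw [hammingDist_comm]; exact h⟩
  loopless := ⟨fun x h => by simp at h⟩

lemma cube_adj {d : ℕ} (x y : Fin d → Bool) : (cube d).Adj x y ↔ hammingDist x y = 1 := Iff.rfl

lemma ham_le_length {d : ℕ} {x y : Fin d → Bool} (w : (cube d).Walk x y) :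
    hammingDist x y ≤ w.length := by
  induction w with
  | nil => simp
  | @cons a b c h p ih =>
    have h1 : hammingDist a b = 1 := h
    have := hammingDist_triangle a b c
    rw [SimpleGraph.Walk.length_cons]
    omega

lemma exists_walk {d : ℕ} (n : ℕ) : ∀ x y : Fin d → Bool, hammingDist x y = n →
    ∃ w : (cube d).Walk x y, w.length = n := by
  induction n with
  | zero =>
    intro x y h
    have : x = y := by simpa using h
    subst this
    exact ⟨SimpleGraph.Walk.nil, rfl⟩
  | succ n ih =>
    intro x y h
    have hne : ∃ i, x i ≠ y i := by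
      by_contra hcon
      push Not at hcon
      have : x = y := funext hcon
      subst this
      simp at h
    obtain ⟨i, hi⟩ := hne
    have hxz : hammingDist x (Function.update x i (y i)) = 1 := by
      unfold hammingDist
      rw [Finset.card_eq_one]
      refine ⟨i, ?_⟩
      ext j
      simp only [ne_eq, mem_filter, mem_univ, true_and, mem_singleton]
      by_cases hj : j = i
      · subst hj; simpa using hi
      · simp [hj]
    have hzy : hammingDist (Function.update x i (y i)) y = n := by
      have h2 : (univ.filter fun j => Function.update x i (y i) j ≠ y j) =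
          (univ.filter fun j => x j ≠ y j).erase i := by
        ext j
        simp only [ne_eq, mem_filter, mem_univ, true_and, mem_erase]
        by_cases hj : j = i
        · subst hj; simp
        · simp [Function.update_of_ne hj, hj]
      unfold hammingDist at h ⊢
      rw [h2, Finset.card_erase_of_mem (by simpa using hi), h]
      rfl
    obtain ⟨w, hw⟩ := ih _ _ hzy
    have hadj : (cube d).Adj x (Function.update x i (y i)) := hxz
    exact ⟨SimpleGraph.Walk.cons hadj w, by rw [SimpleGraph.Walk.length_cons, hw]⟩

lemma cube_dist {d : ℕ} (x y : Fin d → Bool) : (cube d).dist x y = hammingDist x y := by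
  obtain ⟨w, hw⟩ := exists_walk _ x y rfl
  apply le_antisymm
  · rw [← hw]; exact SimpleGraph.dist_le w
  · obtain ⟨p, hp⟩ := (SimpleGraph.Walk.reachable w).exists_walk_length_eq_dist
    rw [← hp]; exact ham_le_length p

/-- `S` is a resolving set of the graph `G` -/
def Resolving {V : Type} (G : SimpleGraph V) (S : Finset V) : Prop :=
  ∀ u v : V, u ≠ v → ∃ s ∈ S, G.dist u s ≠ G.dist v s

/-- `S` is an edge resolving set of the graph `G` -/
def EdgeResolving {V : Type} (G : SimpleGraph V) (S : Finset V) : Prop :=
  ∀ u v x y : V, G.Adj u v → G.Adj x y → s(u, v) ≠ s(x, y) →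
    ∃ s ∈ S, min (G.dist u s) (G.dist v s) ≠ min (G.dist x s) (G.dist y s)

/-- the metric dimension of the hypercube -/
noncomputable def vdim (d : ℕ) : ℕ :=
  sInf {n : ℕ | ∃ S : Finset (Fin d → Bool), S.card = n ∧ Resolving (cube d) S}

/-- the edge metric dimension of the hypercube -/
noncomputable def edim (d : ℕ) : ℕ :=
  sInf {n : ℕ | ∃ S : Finset (Fin d → Bool), S.Nonempty ∧ S.card = n ∧
    EdgeResolving (cube d) S}

/-- the sign of a truth value -/
def sg (b : Bool) : ℤ := if b then 1 else -1

lemma sg_cases (b : Bool) : sg b = 1 ∨ sg b = -1 := by cases b <;> simp [sg]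

lemma sg_mul (a b : Bool) : sg a * sg b = if a ≠ b then -1 else 1 := by
  cases a <;> cases b <;> simp [sg]

lemma sum_sg {d : ℕ} (u s : Fin d → Bool) :
    ∑ k, sg (u k) * sg (s k) = d - 2 * (hammingDist u s : ℤ) := by
  have h1 : ∀ k, sg (u k) * sg (s k) = 1 - 2 * (if u k ≠ s k then (1 : ℤ) else 0) := by
    intro k; rw [sg_mul]; split_ifs <;> norm_num
  rw [Finset.sum_congr rfl fun k _ => h1 k, Finset.sum_sub_distrib, ← Finset.mul_sum]
  have h2 : ∑ k, (if u k ≠ s k then (1 : ℤ) else 0) = (hammingDist u s : ℤ) := by
    rw [Finset.sum_boole]; rfl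
  rw [h2]
  simp

/-- no nonzero vector with entries `-1, 0, 1` is orthogonal to all rows `s ∈ S` -/
def Full {d : ℕ} (S : Finset (Fin d → Bool)) : Prop :=
  ∀ z : Fin d → ℤ, (∀ k, |z k| ≤ 1) → (∀ s ∈ S, ∑ k, z k * sg (s k) = 0) → z = 0

/-- the same for the vectors with a zero entry -/
def Part {d : ℕ} (S : Finset (Fin d → Bool)) : Prop :=
  ∀ z : Fin d → ℤ, (∀ k, |z k| ≤ 1) → (∃ k, z k = 0) →
    (∀ s ∈ S, ∑ k, z k * sg (s k) = 0) → z = 0

lemma cases_of_abs {a : ℤ} (h : |a| ≤ 1) : a = 0 ∨ a = 1 ∨ a = -1 := by
  rw [abs_le] at h; omega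

theorem resolving_iff {d : ℕ} (S : Finset (Fin d → Bool)) :
    Resolving (cube d) S ↔ Full S := by
  constructor
  · intro h z hz hs
    by_contra hne
    set u : Fin d → Bool := fun k => decide (z k = 1) with hu
    set v : Fin d → Bool := fun k => decide (z k = -1) with hv
    have huv : ∀ k, sg (u k) - sg (v k) = 2 * z k := by
      intro k
      rcases cases_of_abs (hz k) with h0 | h0 | h0 <;> simp [hu, hv, h0, sg]
    have hneq : u ≠ v := by
      intro heq
      apply hne
      funext k
      have := huv k
      rw [heq] at this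
      simp at this ⊢
      omega
    obtain ⟨s, hsS, hd⟩ := h u v hneq
    apply hd
    rw [cube_dist, cube_dist]
    have h1 := sum_sg u s
    have h2 := sum_sg v s
    have h3 : ∑ k, sg (u k) * sg (s k) - ∑ k, sg (v k) * sg (s k) = 2 * ∑ k, z k * sg (s k) := by
      rw [← Finset.sum_sub_distrib, Finset.mul_sum]
      refine Finset.sum_congr rfl fun k _ => ?_
      rw [← sub_mul, huv]; ring
    rw [hs s hsS] at h3
    omega
  · intro h u v huv
    by_contra hcon
    push Not at hcon
    apply huv
    have h0 := h (fun k => if u k = v k then 0 else sg (u k)) (fun k => by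
      split_ifs
      · simp
      · rcases sg_cases (u k) with h | h <;> simp [h]) (fun s hs => by
      have h4 := hcon s hs
      rw [cube_dist, cube_dist] at h4
      have h1 := sum_sg u s
      have h2 := sum_sg v s
      have h3 : ∑ k, sg (u k) * sg (s k) - ∑ k, sg (v k) * sg (s k) =
          2 * ∑ k, (if u k = v k then 0 else sg (u k)) * sg (s k) := by
        rw [← Finset.sum_sub_distrib, Finset.mul_sum]
        refine Finset.sum_congr rfl fun k _ => ?_
        cases u k <;> cases v k <;> cases s k <;> simp [sg]
      omega)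
    funext k
    have := congrFun h0 k
    simp only [Pi.zero_apply, ite_eq_left_iff] at this
    by_contra hk
    have h5 := this hk
    rcases sg_cases (u k) with h | h <;> omega

end Pool.Agent.U365.HC
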