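import Pool.Agent.U365.HC.Edge

/-!
# Bounds for the metric dimension and the edge metric dimension of hypercubes
-/

set_option autoImplicit false

namespace Pool.Agent.U365.HC

open Finset

/-- a matrix with entries `1` and `-1`, rows `ι` and columns `κ`, without nonzero kernel vectors
with entries `-1, 0, 1` -/
def Det (ι κ : Type) [Fintype κ] : Prop :=
  ∃ A : ι → κ → Bool, ∀ z : κ → ℤ, (∀ k, |z k| ≤ 1) → (∀ i, ∑ k, z k * sg (A i k) = 0) → z = 0

lemma vdim_le_of_full {d : ℕ} {S : Finset (Fin d → Bool)} (h : Full S) : vdim d ≤ S.card :=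
  Nat.sInf_le ⟨S, rfl, (resolving_iff S).2 h⟩

lemma vdim_le_of_det {ι κ : Type} [Fintype ι] [Fintype κ] (h : Det ι κ) :
    vdim (Fintype.card κ) ≤ Fintype.card ι := by
  classical
  obtain ⟨A, hA⟩ := h
  let e := Fintype.equivFin κ
  have hF : Full (univ.image fun i => fun k => A i (e.symm k)) := by
    intro z hz hs
    have h0 := hA (fun k => z (e k)) (fun k => hz _) (fun i => by
      have := hs _ (mem_image_of_mem _ (mem_univ i))
      rw [← Equiv.sum_comp e] at this
      simpa using this)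
    funext k
    have := congrFun h0 (e.symm k)
    simpa using this
  refine (vdim_le_of_full hF).trans ?_
  exact (Finset.card_image_le).trans (by simp)

lemma full_univ (d : ℕ) : Full (univ : Finset (Fin d → Bool)) := by
  intro z hz hs
  have h0 : ∀ s : Fin d → Bool, ∑ k, z k * sg (s k) = 0 := fun s => hs s (mem_univ s)
  funext k
  have h1 := h0 (fun _ => true)
  have h2 := h0 (Function.update (fun _ => true) k false)
  have h3 : ∑ j, z j * sg ((fun _ => true : Fin d → Bool) j) -
      ∑ j, z j * sg (Function.update (fun _ => true : Fin d → Bool) k false j) = 2 * z k := by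
    rw [← Finset.sum_sub_distrib, Finset.sum_eq_single k]
    · simp [sg]; ring
    · intro j _ hj
      rw [Function.update_of_ne hj]; ring
    · simp
  rw [h1, h2] at h3
  simp only [Pi.zero_apply]
  omega

lemma exists_full (d : ℕ) : ∃ S : Finset (Fin d → Bool), S.card = vdim d ∧ Full S := by
  have hne : {n : ℕ | ∃ S : Finset (Fin d → Bool), S.card = n ∧ Resolving (cube d) S}.Nonempty :=
    ⟨_, univ, rfl, (resolving_iff _).2 (full_univ d)⟩
  obtain ⟨S, h1, h2⟩ := Nat.sInf_mem hne
  exact ⟨S, h1, (resolving_iff S).1 h2⟩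

lemma det_of_full {d : ℕ} {S : Finset (Fin d → Bool)} (h : Full S) : Det S (Fin d) :=
  ⟨fun s k => s.1 k, fun z hz hs => h z hz fun s hsS => hs ⟨s, hsS⟩⟩

lemma nonempty_of_full {d : ℕ} (hd : 1 ≤ d) {S : Finset (Fin d → Bool)} (h : Full S) :
    S.Nonempty := by
  by_contra hcon
  rw [Finset.not_nonempty_iff_eq_empty] at hcon
  have h0 := h (fun _ => 1) (fun _ => by simp) (fun s hs => by simp [hcon] at hs)
  have := congrFun h0 ⟨0, hd⟩
  simp at this

/-- products of two matrices -/
lemma det_add {ι ι' κ κ' : Type} [Fintype κ] [Fintype κ'] (i₀ : ι)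
    (j₀ : ι') (h : Det ι κ) (h' : Det ι' κ') : Det (ι ⊕ ι') (κ ⊕ κ') := by
  classical
  obtain ⟨A, hA⟩ := h
  obtain ⟨B, hB⟩ := h'
  refine ⟨Sum.elim (fun i => Sum.elim (A i) (B j₀))
    (fun j => Sum.elim (A i₀) (if j = j₀ then fun k => !(B j₀ k) else B j)), ?_⟩
  intro z hz hs
  have hl : ∀ i, ∑ k, z (Sum.inl k) * sg (A i k) + ∑ k, z (Sum.inr k) * sg (B j₀ k) = 0 := by
    intro i
    have := hs (Sum.inl i)
    rwa [Fintype.sum_sum_type] at this
  have hr0 : ∑ k, z (Sum.inl k) * sg (A i₀ k) - ∑ k, z (Sum.inr k) * sg (B j₀ k) = 0 := by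
    have := hs (Sum.inr j₀)
    rw [Fintype.sum_sum_type] at this
    simp only [Sum.elim_inl, Sum.elim_inr, if_true] at this
    have h1 : ∑ k, z (Sum.inr k) * sg (!(B j₀ k)) = -∑ k, z (Sum.inr k) * sg (B j₀ k) := by
      rw [← Finset.sum_neg_distrib]
      refine Finset.sum_congr rfl fun k _ => ?_
      cases B j₀ k <;> simp [sg]
    rw [h1] at this
    linarith
  have ha0 : ∑ k, z (Sum.inl k) * sg (A i₀ k) = 0 := by
    have := hl i₀; omega
  have hb0 : ∑ k, z (Sum.inr k) * sg (B j₀ k) = 0 := by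
    have := hl i₀; omega
  have hza := hA (fun k => z (Sum.inl k)) (fun k => hz _) (fun i => by
    have := hl i; omega)
  have hzb := hB (fun k => z (Sum.inr k)) (fun k => hz _) (fun j => by
    by_cases hj : j = j₀
    · rw [hj]; exact hb0
    · have := hs (Sum.inr j)
      rw [Fintype.sum_sum_type] at this
      simp only [Sum.elim_inl, Sum.elim_inr, if_neg hj] at this
      omega)
  funext k
  cases k with
  | inl k => exact congrFun hza k
  | inr k => exact congrFun hzb k

lemma parity {κ : Type} [Fintype κ] (z : κ → ℤ) (a b : κ → Bool) :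
    ∃ q : ℤ, ∑ k, z k * sg (a k) = ∑ k, z k * sg (b k) + 2 * q := by
  refine ⟨∑ k, z k * (if a k = b k then 0 else sg (a k)), ?_⟩
  rw [Finset.mul_sum, ← Finset.sum_add_distrib]
  refine Finset.sum_congr rfl fun k _ => ?_
  cases a k <;> cases b k <;> simp [sg] <;> ring

/-- the doubling construction -/
lemma det_double {ι κ : Type} [Fintype κ] [Fintype ι] [DecidableEq ι] (i₀ : ι) (h : Det ι κ) :
    Det (ι ⊕ ι) ((κ ⊕ κ) ⊕ {i : ι // i ≠ i₀}) := by
  classical
  obtain ⟨A, hA⟩ := h
  refine ⟨Sum.elim (fun i => Sum.elim (Sum.elim (A i) (A i)) (fun _ => true))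
    (fun i => Sum.elim (Sum.elim (A i) (fun k => !(A i k))) (fun j => decide (i = j.1))), ?_⟩
  intro z hz hs
  have h1 : ∀ i, ∑ k, z (Sum.inl (Sum.inl k)) * sg (A i k) +
      ∑ k, z (Sum.inl (Sum.inr k)) * sg (A i k) + ∑ j, z (Sum.inr j) = 0 := by
    intro i
    have := hs (Sum.inl i)
    rw [Fintype.sum_sum_type, Fintype.sum_sum_type] at this
    simp only [Sum.elim_inl, Sum.elim_inr] at this
    have h3 : ∑ j : {i : ι // i ≠ i₀}, z (Sum.inr j) * sg true = ∑ j, z (Sum.inr j) :=
      Finset.sum_congr rfl fun j _ => by simp [sg]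
    rw [h3] at this
    exact this
  have h2 : ∀ i, ∑ k, z (Sum.inl (Sum.inl k)) * sg (A i k) -
      ∑ k, z (Sum.inl (Sum.inr k)) * sg (A i k) +
        ∑ j, z (Sum.inr j) * sg (decide (i = (j : {i : ι // i ≠ i₀}).1)) = 0 := by
    intro i
    have := hs (Sum.inr i)
    rw [Fintype.sum_sum_type, Fintype.sum_sum_type] at this
    simp only [Sum.elim_inl, Sum.elim_inr] at this
    have h3 : ∑ k, z (Sum.inl (Sum.inr k)) * sg (!(A i k)) =
        -∑ k, z (Sum.inl (Sum.inr k)) * sg (A i k) := by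
      rw [← Finset.sum_neg_distrib]
      refine Finset.sum_congr rfl fun k _ => ?_
      cases A i k <;> simp [sg]
    rw [h3] at this
    linarith
  -- the third block at row `i`
  have h3 : ∀ i, ∑ j, z (Sum.inr j) * sg (decide (i = (j : {i : ι // i ≠ i₀}).1)) =
      2 * (∑ j, if i = (j : {i : ι // i ≠ i₀}).1 then z (Sum.inr j) else 0) -
        ∑ j, z (Sum.inr j) := by
    intro i
    rw [Finset.mul_sum, ← Finset.sum_sub_distrib]
    refine Finset.sum_congr rfl fun j _ => ?_
    by_cases hj : i = j.1 <;> simp [hj, sg] <;> ring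
  have h4 : ∀ i, ∑ k, z (Sum.inl (Sum.inl k)) * sg (A i k) +
      (∑ j, if i = (j : {i : ι // i ≠ i₀}).1 then z (Sum.inr j) else 0) = 0 := by
    intro i
    have e1 := h1 i
    have e2 := h2 i
    rw [h3 i] at e2
    linarith
  have h5 : (∑ j, if i₀ = (j : {i : ι // i ≠ i₀}).1 then z (Sum.inr j) else 0) = 0 := by
    apply Finset.sum_eq_zero
    intro j _
    rw [if_neg (fun h => j.2 h.symm)]
  have h6 : ∀ j : {i : ι // i ≠ i₀}, z (Sum.inr j) = 0 := by
    intro j
    have e1 : (∑ j', if j.1 = (j' : {i : ι // i ≠ i₀}).1 then z (Sum.inr j') else 0) =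
        z (Sum.inr j) := by
      rw [Finset.sum_eq_single j]
      · simp
      · intro j' _ hj'
        rw [if_neg]
        intro h
        exact hj' (Subtype.ext h.symm)
      · simp
    have e2 := h4 j.1
    have e3 := h4 i₀
    rw [e1] at e2
    rw [h5] at e3
    obtain ⟨q, hq⟩ := parity (fun k => z (Sum.inl (Sum.inl k))) (A j.1) (A i₀)
    have e4 := hz (Sum.inr j)
    rw [abs_le] at e4
    omega
  have h7 : ∀ i, (∑ j, if i = (j : {i : ι // i ≠ i₀}).1 then z (Sum.inr j) else 0) = 0 := by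
    intro i
    apply Finset.sum_eq_zero
    intro j _
    rw [h6 j]; simp
  have h8 : ∑ j : {i : ι // i ≠ i₀}, z (Sum.inr j) = 0 := Finset.sum_eq_zero fun j _ => h6 j
  have hx := hA (fun k => z (Sum.inl (Sum.inl k))) (fun k => hz _) (fun i => by
    have := h4 i
    rw [h7 i] at this
    linarith)
  have hy := hA (fun k => z (Sum.inl (Sum.inr k))) (fun k => hz _) (fun i => by
    have e1 := h1 i
    have e2 := h4 i
    rw [h7 i] at e2
    rw [h8] at e1
    linarith)
  funext k
  rcases k with (k | k) | k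
  · exact congrFun hx k
  · exact congrFun hy k
  · exact h6 k

lemma vdim_zero : vdim 0 = 0 := by
  have h : vdim 0 ≤ (∅ : Finset (Fin 0 → Bool)).card :=
    vdim_le_of_full (fun z _ _ => by funext k; exact k.elim0)
  simpa using h

lemma vdim_one_le : vdim 1 ≤ 1 := by
  have h : vdim 1 ≤ ({fun _ => true} : Finset (Fin 1 → Bool)).card :=
    vdim_le_of_full (fun z _ hs => by
      have := hs _ (mem_singleton_self _)
      simp [sg] at this
      funext k
      rw [Subsingleton.elim k 0]
      exact this)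
  simpa using h

/-- the metric dimensions of hypercubes are subadditive -/
theorem vdim_add (a b : ℕ) : vdim (a + b) ≤ vdim a + vdim b := by
  rcases Nat.eq_zero_or_pos a with rfl | ha
  · simp [vdim_zero]
  rcases Nat.eq_zero_or_pos b with rfl | hb
  · simp [vdim_zero]
  obtain ⟨S, hS1, hS2⟩ := exists_full a
  obtain ⟨T, hT1, hT2⟩ := exists_full b
  obtain ⟨s, hs⟩ := nonempty_of_full ha hS2
  obtain ⟨t, ht⟩ := nonempty_of_full hb hT2
  have h := vdim_le_of_det (det_add (⟨s, hs⟩ : S) (⟨t, ht⟩ : T) (det_of_full hS2) (det_of_full hT2))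
  simpa [hS1, hT1] using h

theorem vdim_mul (q b : ℕ) : vdim (q * b) ≤ q * vdim b := by
  induction q with
  | zero => simp [vdim_zero]
  | succ q ih =>
    calc vdim ((q + 1) * b) = vdim (q * b + b) := by ring_nf
      _ ≤ vdim (q * b) + vdim b := vdim_add _ _
      _ ≤ q * vdim b + vdim b := by omega
      _ = _ := by ring

/-- removing the last coordinate -/
lemma full_init {d : ℕ} {S : Finset (Fin (d + 1) → Bool)} (h : Part S) :
    Full (S.image fun s => fun k : Fin d => s k.castSucc) := by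
  intro z hz hs
  have h0 := h (Fin.snoc z 0) (fun k => by
      refine Fin.lastCases ?_ (fun k => ?_) k
      · simp
      · simpa using hz k) ⟨Fin.last d, by simp⟩ (fun s hsS => by
      rw [Fin.sum_univ_castSucc]
      have := hs _ (mem_image_of_mem _ hsS)
      simpa using this)
  funext k
  have := congrFun h0 k.castSucc
  simpa using this

lemma vdim_le_of_part {d : ℕ} {S : Finset (Fin (d + 1) → Bool)} (h : Part S) :
    vdim d ≤ S.card :=
  (vdim_le_of_full (full_init h)).trans Finset.card_image_le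

theorem vdim_succ_ge (d : ℕ) : vdim d ≤ vdim (d + 1) := by
  obtain ⟨S, h1, h2⟩ := exists_full (d + 1)
  rw [← h1]
  exact vdim_le_of_part (part_of_full h2)

theorem vdim_mono {a b : ℕ} (h : a ≤ b) : vdim a ≤ vdim b := by
  induction b, h using Nat.le_induction with
  | base => exact le_rfl
  | succ n _ ih => exact ih.trans (vdim_succ_ge n)

lemma exists_edge {d : ℕ} (hd : 3 ≤ d) : ∃ S : Finset (Fin d → Bool), S.Nonempty ∧
    S.card = edim d ∧ Part S := by
  have hne : {n : ℕ | ∃ S : Finset (Fin d → Bool), S.Nonempty ∧ S.card = n ∧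
      EdgeResolving (cube d) S}.Nonempty :=
    ⟨_, univ, univ_nonempty, rfl, edgeResolving_of_part hd (part_of_full (full_univ d))⟩
  obtain ⟨S, h0, h1, h2⟩ := Nat.sInf_mem hne
  exact ⟨S, h0, h1, part_of_edgeResolving h2⟩

theorem edim_le_vdim {d : ℕ} (hd : 3 ≤ d) : edim d ≤ vdim d := by
  obtain ⟨S, h1, h2⟩ := exists_full d
  rw [← h1]
  exact Nat.sInf_le ⟨S, nonempty_of_full (by omega) h2, rfl,
    edgeResolving_of_part hd (part_of_full h2)⟩

theorem vdim_le_edim {d : ℕ} (hd : 3 ≤ d) : vdim (d - 1) ≤ edim d := by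
  obtain ⟨e, rfl⟩ : ∃ e, d = e + 1 := ⟨d - 1, by omega⟩
  obtain ⟨S, _, h1, h2⟩ := exists_edge hd
  rw [← h1]
  exact vdim_le_of_part h2

theorem vdim_le_edim_odd {d : ℕ} (hd : 3 ≤ d) (ho : Odd d) : vdim d ≤ edim d := by
  obtain ⟨S, h0, h1, h2⟩ := exists_edge hd
  rw [← h1]
  exact vdim_le_of_full (full_of_part ho h0 h2)

/-- the exceptional dimensions -/
theorem exceptional {d : ℕ} (hd : 3 ≤ d) (h : vdim d ≠ edim d) :
    Even d ∧ edim d = vdim (d - 1) ∧ vdim d = vdim (d - 1) + 1 := by
  have h1 := edim_le_vdim hd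
  have h2 := vdim_le_edim hd
  have h3 : vdim d ≤ vdim (d - 1) + 1 := by
    have := vdim_add (d - 1) 1
    rw [show d - 1 + 1 = d by omega] at this
    have := vdim_one_le
    omega
  refine ⟨?_, by omega, by omega⟩
  by_contra hcon
  rw [Nat.not_even_iff_odd] at hcon
  have := vdim_le_edim_odd hd hcon
  omega

/-- `2 ^ k` vertices suffice in dimension `k 2 ^ (k - 1) + 1` -/
theorem exists_det (k : ℕ) : ∃ (ι κ : Type) (_ : Fintype ι) (_ : Fintype κ) (_ : Nonempty ι),
    Fintype.card ι = 2 ^ k ∧ 2 * Fintype.card κ = k * 2 ^ k + 2 ∧ Det ι κ := by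
  classical
  induction k with
  | zero =>
    refine ⟨Unit, Unit, inferInstance, inferInstance, inferInstance, by simp, by simp, ?_⟩
    refine ⟨fun _ _ => true, fun z _ hs => ?_⟩
    have := hs ()
    simp [sg] at this
    funext k
    exact this
  | succ k ih =>
    obtain ⟨ι, κ, hι, hκ, ⟨i₀⟩, h1, h2, h3⟩ := ih
    refine ⟨ι ⊕ ι, (κ ⊕ κ) ⊕ {i : ι // i ≠ i₀}, inferInstance, inferInstance, ⟨Sum.inl i₀⟩, ?_,
      ?_, det_double i₀ h3⟩
    · rw [Fintype.card_sum, h1]; ring
    · rw [Fintype.card_sum, Fintype.card_sum]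
      have h4 : Fintype.card {i : ι // i ≠ i₀} = 2 ^ k - 1 := by
        rw [Fintype.card_subtype_compl, h1, Fintype.card_subtype_eq]
      rw [h4]
      have h5 : 1 ≤ 2 ^ k := Nat.one_le_two_pow
      have h6 : (k + 1) * 2 ^ (k + 1) = 2 * (k * 2 ^ k) + 2 * 2 ^ k := by ring
      rw [h6]
      omega

/-- the block bound -/
theorem exists_block (k : ℕ) : ∃ b : ℕ, 2 * b = k * 2 ^ k + 2 ∧ vdim b ≤ 2 ^ k := by
  obtain ⟨ι, κ, hι, hκ, _, h1, h2, h3⟩ := exists_det k
  exact ⟨Fintype.card κ, h2, (vdim_le_of_det h3).trans h1.le⟩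

/-- an explicit upper bound -/
theorem vdim_upper (k N : ℕ) : k * vdim N ≤ 2 * N + k * 2 ^ k := by
  obtain ⟨b, hb1, hb2⟩ := exists_block k
  have hb : 0 < b := by omega
  have h1 : N = (N / b) * b + N % b := (Nat.div_add_mod' N b).symm
  have h2 : vdim N ≤ (N / b) * 2 ^ k + 2 ^ k := by
    calc vdim N = vdim ((N / b) * b + N % b) := by rw [← h1]
      _ ≤ vdim ((N / b) * b) + vdim (N % b) := vdim_add _ _
      _ ≤ (N / b) * vdim b + vdim b := by
          have h3 := vdim_mul (N / b) b
          have h4 := vdim_mono (Nat.mod_lt N hb).le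
          omega
      _ ≤ _ := by
          have := Nat.mul_le_mul_left (N / b) hb2
          omega
  have h3 : k * ((N / b) * 2 ^ k) ≤ 2 * N := by
    have h4 : k * 2 ^ k ≤ 2 * b := by omega
    have h5 : (N / b) * b ≤ N := Nat.div_mul_le_self N b
    calc k * ((N / b) * 2 ^ k) = (N / b) * (k * 2 ^ k) := by ring
      _ ≤ (N / b) * (2 * b) := Nat.mul_le_mul_left _ h4
      _ = 2 * ((N / b) * b) := by ring
      _ ≤ 2 * N := by omega
  calc k * vdim N ≤ k * ((N / b) * 2 ^ k + 2 ^ k) := Nat.mul_le_mul_left _ h2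
    _ = k * ((N / b) * 2 ^ k) + k * 2 ^ k := by ring
    _ ≤ _ := by omega

/-- the number of the exceptional dimensions -/
theorem count_le (N : ℕ) :
    ((Finset.Icc 1 N).filter fun d => vdim d ≠ edim d).card ≤ vdim N + 2 := by
  classical
  have h1 : ∀ N : ℕ, ((Finset.Icc 3 N).filter fun d => vdim d ≠ edim d).card ≤ vdim N := by
    intro N
    induction N with
    | zero => simp
    | succ n ih =>
      by_cases hn : 3 ≤ n + 1
      · have h2 : Finset.Icc 3 (n + 1) = insert (n + 1) (Finset.Icc 3 n) := by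
          ext k; simp only [mem_Icc, mem_insert]; omega
        rw [h2, Finset.filter_insert]
        split_ifs with h3
        · have h4 := (exceptional hn h3).2.2
          have h5 := Finset.card_insert_le (n + 1)
            ((Finset.Icc 3 n).filter fun d => vdim d ≠ edim d)
          rw [show n + 1 - 1 = n by omega] at h4
          omega
        · exact ih.trans (vdim_succ_ge n)
      · have : Finset.Icc 3 (n + 1) = ∅ := by
          rw [Finset.Icc_eq_empty]; omega
        rw [this]; simp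
  have h2 : (Finset.Icc 1 N).filter (fun d => vdim d ≠ edim d) ⊆
      ((Finset.Icc 3 N).filter fun d => vdim d ≠ edim d) ∪ {1, 2} := by
    intro d hd
    rw [mem_filter, mem_Icc] at hd
    rw [mem_union, mem_filter, mem_Icc]
    by_cases h3 : 3 ≤ d
    · exact Or.inl ⟨⟨h3, hd.1.2⟩, hd.2⟩
    · right
      simp only [mem_insert, mem_singleton]
      omega
  have h3 := Finset.card_le_card h2
  have h4 := Finset.card_union_le ((Finset.Icc 3 N).filter fun d => vdim d ≠ edim d) {1, 2}
  have h5 : ({1, 2} : Finset ℕ).card = 2 := rfl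
  have h6 := h1 N
  omega

end Pool.Agent.U365.HC
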