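import Pool.Agent.U365.HC.Base

/-!
# Edge resolving sets of hypercubes
-/

set_option autoImplicit false

namespace Pool.Agent.U365.HC

open Finset

/-- adjacent vertices differ in exactly one coordinate -/
lemma adj_iff {d : ℕ} (u v : Fin d → Bool) :
    (cube d).Adj u v ↔ ∃ i, u i ≠ v i ∧ ∀ k, k ≠ i → u k = v k := by
  rw [cube_adj]
  unfold hammingDist
  rw [Finset.card_eq_one]
  constructor
  · rintro ⟨i, hi⟩
    refine ⟨i, ?_, fun k hk => ?_⟩
    · have : i ∈ (univ.filter fun j => u j ≠ v j) := by rw [hi]; simp
      simpa using this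
    · by_contra hcon
      have : k ∈ (univ.filter fun j => u j ≠ v j) := by simpa using hcon
      rw [hi] at this
      exact hk (by simpa using this)
  · rintro ⟨i, hi, hk⟩
    refine ⟨i, ?_⟩
    ext j
    simp only [ne_eq, mem_filter, mem_univ, true_and, mem_singleton]
    constructor
    · intro h
      by_contra hj
      exact h (hk j hj)
    · rintro rfl
      exact hi

/-- the distances of the two ends of an edge differ by exactly one -/
lemma dist_adj {d : ℕ} {u v : Fin d → Bool} (h : (cube d).Adj u v) (s : Fin d → Bool) :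
    2 * min (hammingDist u s) (hammingDist v s) + 1 = hammingDist u s + hammingDist v s := by
  obtain ⟨i, hi, hk⟩ := (adj_iff u v).1 h
  have h1 := sum_sg u s
  have h2 := sum_sg v s
  have h3 : ∑ k, sg (u k) * sg (s k) + -∑ k, sg (v k) * sg (s k) =
      (sg (u i) - sg (v i)) * sg (s i) := by
    rw [← sub_eq_add_neg, ← Finset.sum_sub_distrib, Finset.sum_eq_single i]
    · ring
    · intro k _ hki
      rw [hk k hki]; ring
    · simp
  have h4 : (sg (u i) - sg (v i)) * sg (s i) = 2 ∨ (sg (u i) - sg (v i)) * sg (s i) = -2 := by
    revert hi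
    cases u i <;> cases v i <;> cases s i <;> simp [sg]
  omega

/-- half of the sum of the sign vectors of the ends of an edge -/
def mid {d : ℕ} (u v : Fin d → Bool) (k : Fin d) : ℤ := if u k = v k then sg (u k) else 0

lemma two_mid {d : ℕ} (u v : Fin d → Bool) (k : Fin d) :
    2 * mid u v k = sg (u k) + sg (v k) := by
  unfold mid
  cases u k <;> cases v k <;> simp [sg]

lemma sum_mid {d : ℕ} {u v : Fin d → Bool} (h : (cube d).Adj u v) (s : Fin d → Bool) :
    ∑ k, mid u v k * sg (s k) = d - 2 * (min (hammingDist u s) (hammingDist v s) : ℕ) - 1 := by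
  have h1 := sum_sg u s
  have h2 := sum_sg v s
  have h3 := dist_adj h s
  have h4 : 2 * ∑ k, mid u v k * sg (s k) =
      ∑ k, sg (u k) * sg (s k) + ∑ k, sg (v k) * sg (s k) := by
    rw [← Finset.sum_add_distrib, Finset.mul_sum]
    refine Finset.sum_congr rfl fun k _ => ?_
    rw [← add_mul, ← two_mid]; ring
  omega

/-- two edges have the same distance from `s` iff the mids have the same product with `s` -/
lemma same_iff {d : ℕ} {u v x y : Fin d → Bool} (h : (cube d).Adj u v) (h' : (cube d).Adj x y)
    (s : Fin d → Bool) :
    min ((cube d).dist u s) ((cube d).dist v s) = min ((cube d).dist x s) ((cube d).dist y s) ↔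
      ∑ k, (mid u v k - mid x y k) * sg (s k) = 0 := by
  rw [cube_dist, cube_dist, cube_dist, cube_dist]
  have h1 := sum_mid h s
  have h2 := sum_mid h' s
  have h3 : ∑ k, (mid u v k - mid x y k) * sg (s k) =
      ∑ k, mid u v k * sg (s k) - ∑ k, mid x y k * sg (s k) := by
    rw [← Finset.sum_sub_distrib]
    exact Finset.sum_congr rfl fun k _ => by ring
  omega

theorem part_of_edgeResolving {d : ℕ} {S : Finset (Fin d → Bool)}
    (h : EdgeResolving (cube d) S) : Part S := by
  rintro z hz ⟨i, hi⟩ hs
  by_contra hne
  set u : Fin d → Bool := fun k => decide (z k = 1) with hu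
  set x : Fin d → Bool := fun k => decide (z k = -1) with hx
  set v : Fin d → Bool := Function.update u i true with hv
  set y : Fin d → Bool := Function.update x i true with hy
  have hui : u i = false := by simp [hu, hi]
  have hxi : x i = false := by simp [hx, hi]
  have huv : (cube d).Adj u v := (adj_iff u v).2 ⟨i, by simp [hv, hui], fun k hk => by
    simp [hv, Function.update_of_ne hk]⟩
  have hxy : (cube d).Adj x y := (adj_iff x y).2 ⟨i, by simp [hy, hxi], fun k hk => by
    simp [hy, Function.update_of_ne hk]⟩
  have hmid : ∀ k, mid u v k - mid x y k = 2 * z k := by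
    intro k
    by_cases hk : k = i
    · subst hk
      simp [mid, hv, hy, hui, hxi, hi]
    · have h1 : v k = u k := by rw [hv, Function.update_of_ne hk]
      have h2 : y k = x k := by rw [hy, Function.update_of_ne hk]
      unfold mid
      rw [if_pos h1.symm, if_pos h2.symm]
      rcases cases_of_abs (hz k) with h0 | h0 | h0 <;> simp [hu, hx, h0, sg]
  have hneq : s(u, v) ≠ s(x, y) := by
    intro heq
    apply hne
    have h1 : u = x := by
      rw [Sym2.eq_iff] at heq
      rcases heq with ⟨h, _⟩ | ⟨h, _⟩
      · exact h
      · exfalso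
        have := congrFun h i
        simp [hui, hy] at this
    have h2 : v = y := by rw [hv, hy, h1]
    funext k
    have := hmid k
    rw [h1, h2] at this
    simp at this ⊢
    omega
  obtain ⟨s, hsS, hd⟩ := h u v x y huv hxy hneq
  apply hd
  rw [same_iff huv hxy]
  rw [Finset.sum_congr rfl fun k _ => by rw [hmid k, mul_assoc], ← Finset.mul_sum, hs s hsS]
  simp

/-- the mid determines the edge -/
lemma mid_inj {d : ℕ} {u v x y : Fin d → Bool} (h : (cube d).Adj u v) (h' : (cube d).Adj x y)
    (hm : ∀ k, mid u v k = mid x y k) : s(u, v) = s(x, y) := by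
  obtain ⟨i, hi, hk⟩ := (adj_iff u v).1 h
  obtain ⟨j, hj, hl⟩ := (adj_iff x y).1 h'
  have hij : i = j := by
    by_contra hne
    have h1 := hm i
    unfold mid at h1
    rw [if_neg hi, if_pos (hl i hne)] at h1
    rcases sg_cases (x i) with h | h <;> omega
  subst hij
  have h2 : ∀ k, k ≠ i → u k = x k := by
    intro k hki
    have h1 := hm k
    unfold mid at h1
    rw [if_pos (hk k hki), if_pos (hl k hki)] at h1
    revert h1
    cases u k <;> cases x k <;> simp [sg]
  have h3 : ∀ k, k ≠ i → v k = y k := fun k hki => by rw [← hk k hki, h2 k hki, hl k hki]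
  rw [Sym2.eq_iff]
  by_cases h4 : u i = x i
  · left
    refine ⟨funext fun k => ?_, funext fun k => ?_⟩
    · by_cases hki : k = i
      · rw [hki, h4]
      · exact h2 k hki
    · by_cases hki : k = i
      · rw [hki]
        revert hi hj h4
        cases u i <;> cases x i <;> cases v i <;> cases y i <;> simp
      · exact h3 k hki
  · right
    refine ⟨funext fun k => ?_, funext fun k => ?_⟩
    · by_cases hki : k = i
      · rw [hki]
        revert hi hj h4
        cases u i <;> cases x i <;> cases v i <;> cases y i <;> simp
      · rw [h2 k hki, hl k hki]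
    · by_cases hki : k = i
      · rw [hki]
        revert hi hj h4
        cases u i <;> cases x i <;> cases v i <;> cases y i <;> simp
      · rw [← hk k hki, h2 k hki]

theorem edgeResolving_of_part {d : ℕ} (hd : 3 ≤ d) {S : Finset (Fin d → Bool)}
    (hP : Part S) : EdgeResolving (cube d) S := by
  intro u v x y huv hxy hne
  by_contra hcon
  push Not at hcon
  apply hne
  apply mid_inj huv hxy
  obtain ⟨i, hi, hk⟩ := (adj_iff u v).1 huv
  obtain ⟨j, hj, hl⟩ := (adj_iff x y).1 hxy
  have hS : ∀ s ∈ S, ∑ k, (mid u v k - mid x y k) * sg (s k) = 0 := fun s hs =>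
    (same_iff huv hxy s).1 (hcon s hs)
  by_cases hij : i = j
  · subst hij
    have heven : ∀ k, ∃ z : ℤ, mid u v k - mid x y k = 2 * z ∧ |z| ≤ 1 ∧ (k = i → z = 0) := by
      intro k
      by_cases hki : k = i
      · refine ⟨0, ?_, by simp, fun _ => rfl⟩
        rw [hki]; unfold mid; rw [if_neg hi, if_neg hj]; simp
      · unfold mid
        rw [if_pos (hk k hki), if_pos (hl k hki)]
        rcases sg_cases (u k) with h1 | h1 <;> rcases sg_cases (x k) with h2 | h2 <;>
          rw [h1, h2]
        · exact ⟨0, by norm_num, by simp, fun h => absurd h hki⟩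
        · exact ⟨1, by norm_num, by simp, fun h => absurd h hki⟩
        · exact ⟨-1, by norm_num, by simp, fun h => absurd h hki⟩
        · exact ⟨0, by norm_num, by simp, fun h => absurd h hki⟩
    choose z hz1 hz2 hz3 using heven
    have h0 := hP z hz2 ⟨i, hz3 i rfl⟩ (fun s hs => by
      have := hS s hs
      rw [Finset.sum_congr rfl fun k _ => by rw [hz1 k, mul_assoc], ← Finset.mul_sum] at this
      omega)
    intro k
    have := hz1 k
    rw [h0] at this
    simp at this
    omega
  · exfalso
    -- the entries of the difference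
    set w : Fin d → ℤ := fun k => mid u v k - mid x y k with hw
    have hwi : w i = 1 ∨ w i = -1 := by
      rw [hw]
      simp only [mid, if_neg hi, if_pos (hl i hij)]
      rcases sg_cases (x i) with h | h <;> omega
    have hwj : w j = 1 ∨ w j = -1 := by
      rw [hw]
      simp only [mid, if_neg hj, if_pos (hk j (Ne.symm hij))]
      rcases sg_cases (u j) with h | h <;> omega
    have hwk : ∀ k, k ≠ i → k ≠ j → w k = 0 ∨ w k = 2 ∨ w k = -2 := by
      intro k h1 h2
      rw [hw]
      simp only [mid, if_pos (hk k h1), if_pos (hl k h2)]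
      rcases sg_cases (u k) with h | h <;> rcases sg_cases (x k) with h' | h' <;> omega
    -- a third coordinate
    obtain ⟨l, hli, hlj⟩ : ∃ l : Fin d, l ≠ i ∧ l ≠ j := by
      by_contra hcon2
      push Not at hcon2
      have : (univ : Finset (Fin d)) ⊆ {i, j} := by
        intro k _
        simp only [mem_insert, mem_singleton]
        by_cases hki : k = i
        · exact Or.inl hki
        · exact Or.inr (hcon2 k hki)
      have h1 := Finset.card_le_card this
      have h2 := Finset.card_le_two (a := i) (b := j)
      rw [Finset.card_univ, Fintype.card_fin] at h1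
      omega
    set R : Finset (Fin d) := (univ.erase i).erase j with hR
    set t : ℤ := ∑ k ∈ R, w k with ht
    -- the sum of the other entries modulo four does not depend on `s`
    have hmod : ∀ s : Fin d → Bool, ∃ q : ℤ, ∑ k ∈ R, w k * sg (s k) = t + 4 * q := by
      intro s
      have h1 : ∀ k ∈ R, ∃ q : ℤ, w k * sg (s k) = w k + 4 * q := by
        intro k hkR
        rw [hR, mem_erase, mem_erase] at hkR
        rcases hwk k hkR.2.1 hkR.1 with h | h | h <;> rcases sg_cases (s k) with h' | h' <;>
          rw [h, h']
        · exact ⟨0, by norm_num⟩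
        · exact ⟨0, by norm_num⟩
        · exact ⟨0, by norm_num⟩
        · exact ⟨-1, by norm_num⟩
        · exact ⟨0, by norm_num⟩
        · exact ⟨1, by norm_num⟩
      choose! q hq using h1
      refine ⟨∑ k ∈ R, q k, ?_⟩
      rw [Finset.sum_congr rfl hq, Finset.sum_add_distrib, ← Finset.mul_sum]
    have hsplit : ∀ f : Fin d → ℤ, ∑ k, f k = f i + f j + ∑ k ∈ R, f k := by
      intro f
      have h1 := Finset.add_sum_erase univ f (mem_univ i)
      have h2 := Finset.add_sum_erase (univ.erase i) f
        (mem_erase.2 ⟨Ne.symm hij, mem_univ j⟩)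
      rw [hR]
      linarith
    have htwo : ∀ s ∈ S, w i * sg (s i) + w j * sg (s j) + ∑ k ∈ R, w k * sg (s k) = 0 := by
      intro s hs
      have := hS s hs
      rw [← hsplit fun k => w k * sg (s k)]
      exact this
    -- the vector supported on `i` and `j`
    have key : ∃ c : ℤ, (c = 1 ∨ c = -1) ∧ ∀ s ∈ S, w i * sg (s i) + c * (w j * sg (s j)) = 0 := by
      by_cases ht4 : ∃ q : ℤ, t = 4 * q
      · obtain ⟨q0, hq0⟩ := ht4
        refine ⟨1, Or.inl rfl, fun s hs => ?_⟩
        obtain ⟨q, hq⟩ := hmod s
        have h1 := htwo s hs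
        rcases hwi with h2 | h2 <;> rcases hwj with h3 | h3 <;>
          rcases sg_cases (s i) with h4 | h4 <;> rcases sg_cases (s j) with h5 | h5 <;>
          rw [h2, h3, h4, h5] at h1 ⊢ <;> omega
      · refine ⟨-1, Or.inr rfl, fun s hs => ?_⟩
        obtain ⟨q, hq⟩ := hmod s
        have h1 := htwo s hs
        rcases hwi with h2 | h2 <;> rcases hwj with h3 | h3 <;>
          rcases sg_cases (s i) with h4 | h4 <;> rcases sg_cases (s j) with h5 | h5 <;>
          rw [h2, h3, h4, h5] at h1 ⊢ <;>
          first
            | omega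
            | (exfalso; apply ht4; exact ⟨-q, by omega⟩)
    obtain ⟨c, hc, hcs⟩ := key
    have h0 := hP (fun k => if k = i then w i else if k = j then c * w j else 0) (fun k => by
        split_ifs
        · rcases hwi with h | h <;> simp [h]
        · rcases hwj with h | h <;> rcases hc with h' | h' <;> simp [h, h']
        · simp) ⟨l, by simp [hli, hlj]⟩ (fun s hs => by
        rw [hsplit]
        have h1 : ∑ k ∈ R, (if k = i then w i else if k = j then c * w j else 0) * sg (s k) = 0 := by
          apply Finset.sum_eq_zero
          intro k hkR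
          rw [hR, mem_erase, mem_erase] at hkR
          rw [if_neg hkR.2.1, if_neg hkR.1]; ring
        rw [h1, if_pos rfl, if_neg (Ne.symm hij), if_pos rfl]
        have := hcs s hs
        linarith)
    have := congrFun h0 i
    simp at this
    rcases hwi with h | h <;> omega

lemma part_of_full {d : ℕ} {S : Finset (Fin d → Bool)} (h : Full S) : Part S :=
  fun z hz _ hs => h z hz hs

/-- odd dimension: the two conditions are the same -/
lemma full_of_part {d : ℕ} (hd : Odd d) {S : Finset (Fin d → Bool)} (hS : S.Nonempty)
    (h : Part S) : Full S := by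
  intro z hz hs
  by_cases h0 : ∃ k, z k = 0
  · exact h z hz h0 hs
  · exfalso
    push Not at h0
    obtain ⟨s, hsS⟩ := hS
    have h1 := hs s hsS
    have h2 : ∀ k ∈ (univ : Finset (Fin d)), ∃ q : ℤ, z k * sg (s k) = 1 + 2 * q := by
      intro k _
      rcases cases_of_abs (hz k) with h | h | h
      · exact absurd h (h0 k)
      · rcases sg_cases (s k) with h' | h' <;> rw [h, h']
        · exact ⟨0, by norm_num⟩
        · exact ⟨-1, by norm_num⟩
      · rcases sg_cases (s k) with h' | h' <;> rw [h, h']
        · exact ⟨-1, by norm_num⟩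
        · exact ⟨0, by norm_num⟩
    choose! q hq using h2
    rw [Finset.sum_congr rfl hq, Finset.sum_add_distrib, ← Finset.mul_sum] at h1
    simp at h1
    obtain ⟨m, hm⟩ := hd
    omega

end Pool.Agent.U365.HC
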